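import Pool.Agent.H.MP_af65a2_co.Defs

namespace Pool.Agent.H.MP_af65a2_co

open Finset

theorem lab_of_inj {V : Type} [Fintype V] {f : V → ℕ} (hi : Function.Injective f)
    (hm : ∀ v, 1 ≤ f v ∧ f v ≤ Fintype.card V) : IsLab f := by
  classical
  refine ⟨fun v _ => hm v, fun a _ b _ h => hi h, ?_⟩
  have h1 : univ.image f = Icc 1 (Fintype.card V) := by
    apply eq_of_subset_of_card_le
    · intro x hx
      obtain ⟨v, -, rfl⟩ := mem_image.1 hx
      exact mem_Icc.2 (hm v)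
    · rw [card_image_of_injective _ hi]; simp
  intro x hx
  have : x ∈ univ.image f := by rw [h1]; exact mem_Icc.2 hx
  obtain ⟨v, -, rfl⟩ := mem_image.1 this
  exact ⟨v, trivial, rfl⟩

def ltk (a1 a2 a3 b1 b2 b3 : ℤ) : Prop :=
  a1 < b1 ∨ (a1 = b1 ∧ (a2 < b2 ∨ (a2 = b2 ∧ a3 < b3)))

theorem ar1 {a b c d e f g : ℤ} (h : ltk a b c 0 d e) (h' : ¬ ltk 0 f g (-a) (-b) c) : a = 0 := by
  unfold ltk at *; omega

theorem ar1' {a b c d e f g : ℤ} (h : ltk 0 f g a b c) (h' : ¬ ltk (-a) (-b) c 0 d e) : a = 0 := by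
  unfold ltk at *; omega

theorem ar2 {wx wx' wy wy' : ℕ} {px px' py py' cx cx' cy cy' a a' : ℤ} (hw : wx = wx')
    (h1 : -1 ≤ px + px') (h2 : px + px' ≤ 1)
    (s1 : (px % 2 = 0 ∧ cx = wx) ∨ (px % 2 = 1 ∧ cx = -(wx : ℤ)))
    (s2 : (px' % 2 = 0 ∧ cx' = wx') ∨ (px' % 2 = 1 ∧ cx' = -(wx' : ℤ)))
    (s3 : (py % 2 = 0 ∧ cy = wy) ∨ (py % 2 = 1 ∧ cy = -(wy : ℤ)))
    (s4 : (py' % 2 = 0 ∧ cy' = wy') ∨ (py' % 2 = 1 ∧ cy' = -(wy' : ℤ))) (hh : wy = wy')
    (u1 : ltk a py cy 0 px cx) (u2 : ¬ ltk 0 px' cx' (-a) (-py) cy)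
    (u3 : ltk a' py' cy' 0 px cx) (u4 : ¬ ltk 0 px' cx' (-a') (-py') cy') : py = py' := by
  have := ar1 u1 u2
  have := ar1 u3 u4
  subst_vars
  unfold ltk at *; omega

theorem ar2' {wx wx' wy wy' : ℕ} {px px' py py' cx cx' cy cy' a a' : ℤ} (hw : wx = wx')
    (h1 : -1 ≤ px + px') (h2 : px + px' ≤ 1)
    (s1 : (px % 2 = 0 ∧ cx = wx) ∨ (px % 2 = 1 ∧ cx = -(wx : ℤ)))
    (s2 : (px' % 2 = 0 ∧ cx' = wx') ∨ (px' % 2 = 1 ∧ cx' = -(wx' : ℤ)))
    (s3 : (py % 2 = 0 ∧ cy = wy) ∨ (py % 2 = 1 ∧ cy = -(wy : ℤ)))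
    (s4 : (py' % 2 = 0 ∧ cy' = wy') ∨ (py' % 2 = 1 ∧ cy' = -(wy' : ℤ))) (hh : wy = wy')
    (u1 : ltk 0 px' cx' a py cy) (u2 : ¬ ltk (-a) (-py) cy 0 px cx)
    (u3 : ltk 0 px' cx' a' py' cy') (u4 : ¬ ltk (-a') (-py') cy' 0 px cx) : py = py' := by
  have := ar1' u1 u2
  have := ar1' u3 u4
  subst_vars
  unfold ltk at *; omega

theorem ar3 {wx wx' wy : ℕ} {px px' py cx cx' cy ax ax' a : ℤ} (hw : wx = wx')
    (h1 : -1 ≤ px + px') (h2 : px + px' ≤ 1)
    (t1 : (0 < px ∧ ax = wx + 1) ∨ (px < 0 ∧ ax = -((wx : ℤ) + 1)))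
    (t2 : (0 < px' ∧ ax' = wx' + 1) ∨ (px' < 0 ∧ ax' = -((wx' : ℤ) + 1)))
    (t3 : a = 0 ∨ a = wy + 1 ∨ a = -((wy : ℤ) + 1))
    (s1 : (px % 2 = 0 ∧ cx = wx) ∨ (px % 2 = 1 ∧ cx = -(wx : ℤ)))
    (s3 : (py % 2 = 0 ∧ cy = wy) ∨ (py % 2 = 1 ∧ cy = -(wy : ℤ)))
    (u1 : ltk a py cy ax px cx) (u2 : ¬ ltk ax' px' cx' (-a) (-py) cy) :
    wy = wx ∧ py = px - 1 := by
  have e1 : ax' = -ax := by omega
  have e2 : a = ax := by unfold ltk at *; omega
  have e3 : wy = wx := by omega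
  subst e1 e2 e3
  refine ⟨rfl, ?_⟩
  clear t1 t2 t3
  unfold ltk at *; omega

theorem ar3' {wx wx' wy : ℕ} {px px' py cx cx' cy ax ax' a : ℤ} (hw : wx = wx')
    (h1 : -1 ≤ px + px') (h2 : px + px' ≤ 1)
    (t1 : (0 < px ∧ ax = wx + 1) ∨ (px < 0 ∧ ax = -((wx : ℤ) + 1)))
    (t2 : (0 < px' ∧ ax' = wx' + 1) ∨ (px' < 0 ∧ ax' = -((wx' : ℤ) + 1)))
    (t3 : a = 0 ∨ a = wy + 1 ∨ a = -((wy : ℤ) + 1))
    (s1 : (px' % 2 = 0 ∧ cx' = wx') ∨ (px' % 2 = 1 ∧ cx' = -(wx' : ℤ)))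
    (s3 : (py % 2 = 0 ∧ cy = wy) ∨ (py % 2 = 1 ∧ cy = -(wy : ℤ)))
    (u1 : ltk ax' px' cx' a py cy) (u2 : ¬ ltk (-a) (-py) cy ax px cx) :
    wy = wx ∧ py = px' + 1 := by
  have e1 : ax = -ax' := by omega
  have e2 : a = ax' := by unfold ltk at *; omega
  have e3 : wy = wx := by omega
  subst e1 e2 e3
  refine ⟨rfl, ?_⟩
  clear t1 t2 t3
  unfold ltk at *; omega

theorem card_le_aux {V : Type} [Fintype V] (τ : V → V) (hτ : Function.Injective τ)
    (A B : V → Prop) [DecidablePred A] [DecidablePred B] (m : ℕ)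
    (h : (univ.filter fun y => A y ∧ ¬ B (τ y)).card ≤ m) :
    (univ.filter A).card ≤ (univ.filter B).card + m := by
  classical
  have h1 : (univ.filter fun y => A y ∧ B (τ y)).card ≤ (univ.filter B).card := by
    refine card_le_card_of_injOn τ (fun y hy => ?_) (fun a _ b _ h => hτ h)
    simp only [coe_filter, mem_univ, true_and, Set.mem_setOf_eq] at hy ⊢
    exact hy.2
  have h2 := card_filter_add_card_filter_not (s := univ.filter A) (fun y => B (τ y))
  rw [filter_filter, filter_filter] at h2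
  omega

theorem build {V : Type} [Fintype V] (w : V → ℕ) (od : V → Prop) (p : V → ℤ) (m : ℕ)
    (hm : 1 ≤ m) (hod : ∀ x y, w x = w y → (od x ↔ od y))
    (hinj : ∀ x y, w x = w y → p x = p y → x = y)
    (hnz : ∀ x, ¬ od x → p x ≠ 0)
    (hτ : ∀ x, ∃ y, w y = w x ∧ p y = - p x)
    (O : Finset ℕ) (hO : ∀ x, od x → w x ∈ O) (hOm : O.card ≤ m) :
    ∃ f : V → ℕ, IsLab f ∧ ∀ x x', w x = w x' → -1 ≤ p x + p x' → p x + p x' ≤ 1 →
      f x + f x' ≤ Fintype.card V + 1 + m ∧ Fintype.card V + 1 ≤ f x + f x' + m := by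
  classical
  choose τ hτw hτp using hτ
  have τinj : Function.Injective τ := by
    intro a b h
    refine hinj a b ?_ ?_
    · rw [← hτw a, h, hτw]
    · have h1 := hτp a
      rw [h, hτp] at h1
      omega
  obtain ⟨k1, k1s⟩ : ∃ k1 : V → ℤ, ∀ x, (od x ∧ k1 x = 0) ∨ (¬ od x ∧ 0 < p x ∧ k1 x = w x + 1) ∨
      (¬ od x ∧ p x < 0 ∧ k1 x = -((w x : ℤ) + 1)) := by
    refine ⟨fun x => if od x then 0 else if 0 < p x then (w x : ℤ) + 1 else -((w x : ℤ) + 1), ?_⟩
    intro x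
    by_cases h : od x
    · left; simp [h]
    · have := hnz x h
      by_cases h2 : 0 < p x
      · right; left; simp [h, h2]
      · right; right; refine ⟨h, by omega, by simp [h, h2]⟩
  obtain ⟨k3, k3s⟩ : ∃ k3 : V → ℤ,
      ∀ x, (p x % 2 = 0 ∧ k3 x = w x) ∨ (p x % 2 = 1 ∧ k3 x = -(w x : ℤ)) := by
    refine ⟨fun x => if p x % 2 = 0 then (w x : ℤ) else -(w x : ℤ), ?_⟩
    intro x
    by_cases h : p x % 2 = 0
    · left; exact ⟨h, if_pos h⟩
    · right; exact ⟨by omega, if_neg h⟩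
  have k1τ : ∀ x, k1 (τ x) = - k1 x := by
    intro x
    have h1 := k1s x
    have h2 := k1s (τ x)
    have h3 := hod _ _ (hτw x)
    have h4 := hτw x
    have h5 := hτp x
    by_cases h : od x
    · simp only [h, h3.2 h, not_true, false_and, or_false, true_and] at h1 h2; omega
    · have h' : ¬ od (τ x) := fun hh => h (h3.1 hh)
      simp only [h, h', not_false_iff, false_and, false_or, true_and] at h1 h2; omega
  have k3τ : ∀ x, k3 (τ x) = k3 x := by
    intro x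
    have h1 := k3s x
    have h2 := k3s (τ x)
    have h4 := hτw x
    have h5 := hτp x
    omega
  let lt : V → V → Prop := fun y x => ltk (k1 y) (p y) (k3 y) (k1 x) (p x) (k3 x)
  have tri : ∀ x y, lt x y ∨ x = y ∨ lt y x := by
    intro x y
    by_cases h : x = y
    · exact Or.inr (Or.inl h)
    have h0 : ¬ (w x = w y ∧ p x = p y) := fun hh => h (hinj _ _ hh.1 hh.2)
    have h1 := k3s x
    have h2 := k3s y
    have : lt x y ∨ lt y x := by
      simp only [lt, ltk]; omega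
    tauto
  have trans : ∀ x y z, lt x y → lt y z → lt x z := by
    intro x y z; simp only [lt, ltk]; omega
  have irr : ∀ x, ¬ lt x x := by
    intro x; simp only [lt, ltk]; omega
  let A : V → ℕ := fun x => (univ.filter fun y => lt y x).card
  let B : V → ℕ := fun x => (univ.filter fun y => lt x y).card
  have hAB : ∀ x, A x + B x + 1 = Fintype.card V := by
    intro x
    have h1 := card_filter_add_card_filter_not (s := (univ : Finset V)) (fun y => lt y x)
    have h2 : (univ.filter fun y => ¬ lt y x) = insert x (univ.filter fun y => lt x y) := by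
      ext y
      simp only [mem_filter, mem_univ, true_and, mem_insert]
      constructor
      · intro h; rcases tri y x with h' | h' | h' <;> tauto
      · rintro (rfl | h)
        · exact irr _
        · exact fun h' => irr _ (trans _ _ _ h h')
    rw [h2, card_insert_of_notMem (by simp [irr]), card_univ] at h1
    simp only [A, B]; omega
  have hAlt : ∀ x y, lt x y → A x < A y := by
    intro x y h
    refine card_lt_card ⟨fun z hz => ?_, fun hh => ?_⟩
    · simp only [mem_filter, mem_univ, true_and] at hz ⊢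
      exact trans _ _ _ hz h
    · have := hh (mem_filter.2 ⟨mem_univ x, h⟩)
      exact irr _ (mem_filter.1 this).2
  refine ⟨fun x => A x + 1, lab_of_inj ?_ ?_, ?_⟩
  · intro x y h
    rcases tri x y with h' | h' | h'
    · have := hAlt _ _ h'; simp only at h; omega
    · exact h'
    · have := hAlt _ _ h'; simp only at h; omega
  · intro v; have := hAB v; omega
  intro x x' hw h1 h2
  have hx := hod _ _ hw
  have key : ∀ D : V → Prop, ∀ [DecidablePred D],
      (od x → ∀ y, D y → od y) →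
      (od x → ∀ y y', D y → D y' → w y = w y' → p y = p y') →
      (¬ od x → ∀ y y', D y → D y' → w y = w y' ∧ p y = p y') →
      (univ.filter D).card ≤ m := by
    intro D _ a b c
    by_cases h : od x
    · refine le_trans (card_le_card_of_injOn w (fun y hy => ?_) (fun y hy y' hy' hh => ?_)) hOm
      · exact hO y (a h y (by simpa using hy))
      · exact hinj _ _ hh (b h y y' (by simpa using hy) (by simpa using hy') hh)
    · refine le_trans (card_le_one.2 fun y hy y' hy' => ?_) hm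
      have := c h y y' (by simpa using hy) (by simpa using hy')
      exact hinj _ _ this.1 this.2
  have o1 : ∀ y, od y → k1 y = 0 := fun y h => by have := k1s y; tauto
  have o2 : ∀ y, k1 y = 0 → od y := fun y h => by
    by_contra hn
    have := k1s y
    simp only [hn, not_false_iff, false_and, false_or, true_and] at this
    omega
  have o3 : ∀ y, k1 y = 0 ∨ k1 y = w y + 1 ∨ k1 y = -((w y : ℤ) + 1) := fun y => by
    have := k1s y; tauto
  have o4 : ∀ y, ¬ od y → (0 < p y ∧ k1 y = w y + 1) ∨ (p y < 0 ∧ k1 y = -((w y : ℤ) + 1)) :=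
    fun y h => by have := k1s y; tauto
  have e1 : A x ≤ B x' + m := by
    refine card_le_aux τ τinj _ _ m (key _ ?_ ?_ ?_)
    · intro h y hy
      simp only [lt, k1τ, k3τ, hτp, o1 x h, o1 x' (hx.1 h)] at hy
      exact o2 y (ar1 hy.1 hy.2)
    · intro h y y' hy hy' hh
      simp only [lt, k1τ, k3τ, hτp, o1 x h, o1 x' (hx.1 h)] at hy hy'
      exact ar2 hw h1 h2 (k3s x) (k3s x') (k3s y) (k3s y') hh hy.1 hy.2 hy'.1 hy'.2
    · intro h y y' hy hy'
      have h' : ¬ od x' := fun hh => h (hx.2 hh)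
      simp only [lt, k1τ, k3τ, hτp] at hy hy'
      have c1 := ar3 hw h1 h2 (o4 x h) (o4 x' h') (o3 y) (k3s x) (k3s y) hy.1 hy.2
      have c2 := ar3 hw h1 h2 (o4 x h) (o4 x' h') (o3 y') (k3s x) (k3s y') hy'.1 hy'.2
      omega
  have e2 : B x' ≤ A x + m := by
    refine card_le_aux τ τinj _ _ m (key _ ?_ ?_ ?_)
    · intro h y hy
      simp only [lt, k1τ, k3τ, hτp, o1 x h, o1 x' (hx.1 h)] at hy
      exact o2 y (ar1' hy.1 hy.2)
    · intro h y y' hy hy' hh
      simp only [lt, k1τ, k3τ, hτp, o1 x h, o1 x' (hx.1 h)] at hy hy'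
      exact ar2' hw h1 h2 (k3s x) (k3s x') (k3s y) (k3s y') hh hy.1 hy.2 hy'.1 hy'.2
    · intro h y y' hy hy'
      have h' : ¬ od x' := fun hh => h (hx.2 hh)
      simp only [lt, k1τ, k3τ, hτp] at hy hy'
      have c1 := ar3' hw h1 h2 (o4 x h) (o4 x' h') (o3 y) (k3s x') (k3s y) hy.1 hy.2
      have c2 := ar3' hw h1 h2 (o4 x h) (o4 x' h') (o3 y') (k3s x') (k3s y') hy'.1 hy'.2
      omega
  have := hAB x'
  simp only
  omega

/-- signed layer of position `u` on a cycle of length `s` -/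
def pp (s u : ℕ) : ℤ :=
  if s % 2 = 1 then
    (if u ≤ s / 2 then (if u % 2 = 1 then (u : ℤ) else -(u : ℤ))
      else (if (s - u) % 2 = 1 then -((s : ℤ) - u) else (s : ℤ) - u))
  else
    (if u < s / 2 then (if u % 2 = 0 then (u : ℤ) + 1 else -((u : ℤ) + 1))
      else (if (s - u) % 2 = 1 then -((s : ℤ) - u) else (s : ℤ) - u))

theorem pp_inj {s u v : ℕ} (hu : u < s) (hv : v < s) (h : pp s u = pp s v) : u = v := by
  unfold pp at h; split_ifs at h <;> omega

theorem pp_nz {s u : ℕ} (hu : u < s) (hs : ¬ s % 2 = 1) : pp s u ≠ 0 := by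
  unfold pp; split_ifs <;> omega

theorem pp_refl {s u : ℕ} (hu : u < s) : ∃ v < s, pp s v = - pp s u := by
  by_cases hs : s % 2 = 1
  · by_cases h0 : u = 0
    · exact ⟨0, by omega, by subst h0; simp [pp, hs]⟩
    · refine ⟨s - u, by omega, ?_⟩
      unfold pp; split_ifs <;> omega
  · refine ⟨s - 1 - u, by omega, ?_⟩
    unfold pp; split_ifs <;> omega

theorem pp_edge {s u v : ℕ} (hu : u < s) (hv : (u + 1 < s ∧ v = u + 1) ∨ (u + 1 = s ∧ v = 0)) :
    -1 ≤ pp s u + pp s v ∧ pp s u + pp s v ≤ 1 := by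
  unfold pp; split_ifs <;> omega

end Pool.Agent.H.MP_af65a2_co
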