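import Mathlib

namespace Pool.Agent.H.MP_af65a2_co

/-- disjoint union of the cycles of lengths `t i` -/
def cycles {k : ℕ} (t : Fin k → ℕ) : SimpleGraph (Σ i : Fin k, Fin (t i)) :=
  SimpleGraph.fromRel fun x y => x.1 = y.1 ∧ (x.2.val + 1) % t x.1 = y.2.val

open Classical in
/-- `f(N(v))` -/
noncomputable def nsum {V : Type} [Fintype V] (G : SimpleGraph V) (f : V → ℕ) (v : V) : ℕ :=
  ∑ u, if G.Adj v u then f u else 0

/-- bijections onto `[n]` -/
def IsLab {V : Type} [Fintype V] (f : V → ℕ) : Prop :=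
  Set.BijOn f Set.univ (Set.Icc 1 (Fintype.card V))

noncomputable def hi {V : Type} [Fintype V] (G : SimpleGraph V) (f : V → ℕ) : ℕ :=
  ⨆ v, nsum G f v

noncomputable def lo {V : Type} [Fintype V] (G : SimpleGraph V) (f : V → ℕ) : ℕ :=
  ⨅ v, nsum G f v

end Pool.Agent.H.MP_af65a2_co
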