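import Pool.Agent.H.MP_af65a2_co.Build

namespace Pool.Agent.H.MP_af65a2_co

open Finset

abbrev VV {k : ℕ} (t : Fin k → ℕ) := Σ i : Fin k, Fin (t i)

variable {k : ℕ} {t : Fin k → ℕ}

def nx (x : VV t) : VV t := ⟨x.1, ⟨(x.2.val + 1) % t x.1, Nat.mod_lt _ x.2.pos⟩⟩

theorem vext {x y : VV t} (h1 : x.1 = y.1) (h2 : x.2.val = y.2.val) : x = y := by
  obtain ⟨i, a⟩ := x
  obtain ⟨j, b⟩ := y
  simp only at h1 h2
  subst h1
  rw [Fin.ext h2]

theorem nx_fst (x : VV t) : (nx x).1 = x.1 := rfl

theorem nx_val (x : VV t) : (x.2.val + 1 < t x.1 ∧ (nx x).2.val = x.2.val + 1) ∨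
    (x.2.val + 1 = t x.1 ∧ (nx x).2.val = 0) := by
  have := x.2.isLt
  by_cases h : x.2.val + 1 < t x.1
  · left; exact ⟨h, Nat.mod_eq_of_lt h⟩
  · right
    have h2 : x.2.val + 1 = t x.1 := by omega
    refine ⟨h2, ?_⟩
    show (x.2.val + 1) % t x.1 = 0
    rw [h2, Nat.mod_self]

theorem nx2_val (ht : ∀ i, 3 ≤ t i) (x : VV t) :
    (x.2.val + 2 < t x.1 ∧ (nx (nx x)).2.val = x.2.val + 2) ∨
    (t x.1 ≤ x.2.val + 2 ∧ (nx (nx x)).2.val + t x.1 = x.2.val + 2) := by
  have h1 := nx_val x
  have h2 := nx_val (nx x)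
  have h3 := ht x.1
  have h4 : t (nx x).1 = t x.1 := rfl
  omega

theorem nx_inj : Function.Injective (nx : VV t → VV t) := by
  intro x y h
  have h1 : x.1 = y.1 := by rw [← nx_fst x, h, nx_fst]
  have h2 : (nx x).2.val = (nx y).2.val := by rw [h]
  have h3 := nx_val x
  have h4 := nx_val y
  have h5 : t x.1 = t y.1 := by rw [h1]
  exact vext h1 (by omega)

theorem nx_surj : Function.Surjective (nx : VV t → VV t) :=
  Finite.surjective_of_injective nx_inj

theorem nx2_ne (ht : ∀ i, 3 ≤ t i) (x : VV t) : nx (nx x) ≠ x := by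
  intro h
  have h2 : (nx (nx x)).2.val = x.2.val := by rw [h]
  have := nx2_val ht x
  have := ht x.1
  omega

theorem adj_iff (ht : ∀ i, 3 ≤ t i) (x u : VV t) :
    (cycles t).Adj (nx x) u ↔ u = x ∨ u = nx (nx x) := by
  have hne : ∀ y : VV t, nx y ≠ y := by
    intro y h
    have h2 : (nx y).2.val = y.2.val := by rw [h]
    have := nx_val y
    have := ht y.1
    omega
  have hrel : ∀ a b : VV t, (a.1 = b.1 ∧ (a.2.val + 1) % t a.1 = b.2.val) ↔ nx a = b := by
    intro a b
    constructor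
    · rintro ⟨h1, h2⟩; exact vext h1 h2
    · rintro rfl; exact ⟨rfl, rfl⟩
  unfold cycles
  rw [SimpleGraph.fromRel_adj, hrel, hrel]
  constructor
  · rintro ⟨-, h | h⟩
    · exact Or.inr h.symm
    · exact Or.inl (nx_inj h)
  · rintro (rfl | rfl)
    · exact ⟨hne _, Or.inr rfl⟩
    · exact ⟨(hne _).symm, Or.inl rfl⟩

theorem nsum_nx (ht : ∀ i, 3 ≤ t i) (f : VV t → ℕ) (x : VV t) :
    nsum (cycles t) f (nx x) = f x + f (nx (nx x)) := by
  classical
  unfold nsum
  rw [← sum_filter, ← sum_pair (nx2_ne ht x).symm]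
  refine sum_congr ?_ fun _ _ => rfl
  ext u
  simp [adj_iff ht]

theorem card_VV : Fintype.card (VV t) = ∑ i, t i := by simp

def oo (t : Fin k → ℕ) : ℕ :=
  (univ.filter fun i => t i % 2 = 1).card + 2 * (univ.filter fun i => t i % 4 = 2).card

theorem good (ht : ∀ i, 3 ≤ t i) : ∃ f : VV t → ℕ, IsLab f ∧ ∀ v,
    nsum (cycles t) f v ≤ (∑ i, t i) + 1 + max (oo t) 1 ∧
      (∑ i, t i) + 1 ≤ nsum (cycles t) f v + max (oo t) 1 := by
  classical
  obtain ⟨s, hs⟩ : ∃ s : ℕ → ℕ, ∀ a, (a % 2 = 1 ∧ s a = a) ∨ (a % 2 = 0 ∧ s a = a / 2) :=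
    ⟨fun a => if a % 2 = 1 then a else a / 2, fun a => by
      by_cases h : a % 2 = 1
      · left; exact ⟨h, if_pos h⟩
      · right; exact ⟨by omega, if_neg h⟩⟩
  obtain ⟨e, he⟩ : ∃ e : ℕ → ℕ → ℕ, ∀ T a, (T % 2 = 1 ∧ e T a = 0) ∨ (T % 2 = 0 ∧ e T a = a % 2) :=
    ⟨fun T a => if T % 2 = 1 then 0 else a % 2, fun T a => by
      by_cases h : T % 2 = 1
      · left; exact ⟨h, if_pos h⟩
      · right; exact ⟨by omega, if_neg h⟩⟩
  obtain ⟨u, hu⟩ : ∃ u : ℕ → ℕ → ℕ, ∀ T a, (T % 2 = 1 ∧ a % 2 = 1 ∧ u T a = (a + T) / 2) ∨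
      ((T % 2 = 0 ∨ a % 2 = 0) ∧ u T a = a / 2) :=
    ⟨fun T a => if T % 2 = 1 ∧ a % 2 = 1 then (a + T) / 2 else a / 2, fun T a => by
      by_cases h : T % 2 = 1 ∧ a % 2 = 1
      · left; exact ⟨h.1, h.2, if_pos h⟩
      · right; exact ⟨by omega, if_neg h⟩⟩
  let w : VV t → ℕ := fun x => 2 * x.1.val + e (t x.1) x.2.val
  have hw1 : ∀ x y : VV t, w x = w y → x.1 = y.1 := by
    intro x y h
    have h1 := he (t x.1) x.2.val
    have h2 := he (t y.1) y.2.val
    simp only [w] at h
    exact Fin.ext (by omega)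
  have hult : ∀ x : VV t, u (t x.1) x.2.val < s (t x.1) := by
    intro x
    have := hu (t x.1) x.2.val
    have := hs (t x.1)
    have := x.2.isLt
    omega
  let O : Finset ℕ := ((univ.filter fun i => t i % 2 = 1).image fun i => 2 * i.val) ∪
    (((univ.filter fun i => t i % 4 = 2).image fun i => 2 * i.val) ∪
      ((univ.filter fun i => t i % 4 = 2).image fun i => 2 * i.val + 1))
  obtain ⟨f, hf, hb⟩ := build w (fun x => s (t x.1) % 2 = 1)
    (fun x => pp (s (t x.1)) (u (t x.1) x.2.val)) (max (oo t) 1) (le_max_right _ _)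
    (fun x y h => by rw [hw1 x y h])
    (fun x y h h' => by
      obtain ⟨i, a⟩ := x
      obtain ⟨j, b⟩ := y
      have hij : i = j := hw1 _ _ h
      subst hij
      have h3 := pp_inj (hult ⟨i, a⟩) (hult ⟨i, b⟩) h'
      have h4 := hu (t i) a.val
      have h5 := hu (t i) b.val
      have h6 := he (t i) a.val
      have h7 := he (t i) b.val
      have h8 := a.isLt
      have h9 := b.isLt
      simp only [w] at h h3
      exact vext rfl (by simp only; omega))
    (fun x h => pp_nz (hult x) h)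
    (fun x => by
      obtain ⟨v, hv, hv'⟩ := pp_refl (hult x)
      obtain ⟨i, a⟩ := x
      have h1 := hs (t i)
      have h2 := he (t i) a.val
      simp only at hv hv'
      have : ∃ b, b < t i ∧ e (t i) b = e (t i) a.val ∧ u (t i) b = v := by
        by_cases ho : t i % 2 = 1
        · by_cases h3 : 2 * v < t i
          · have := he (t i) (2 * v)
            have := hu (t i) (2 * v)
            exact ⟨2 * v, h3, by omega, by omega⟩
          · have := he (t i) (2 * v - t i)
            have := hu (t i) (2 * v - t i)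
            exact ⟨2 * v - t i, by omega, by omega, by omega⟩
        · have := he (t i) (2 * v + a.val % 2)
          have := hu (t i) (2 * v + a.val % 2)
          exact ⟨2 * v + a.val % 2, by omega, by omega, by omega⟩
      obtain ⟨b, hb1, hb2, hb3⟩ := this
      refine ⟨⟨i, ⟨b, hb1⟩⟩, ?_, ?_⟩
      · simp only [w, hb2]
      · simp only [hb3, hv'])
    O
    (fun x h => by
      have h1 := hs (t x.1)
      have h2 := he (t x.1) x.2.val
      simp only [O, mem_union, mem_image, mem_filter, mem_univ, true_and, w]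
      by_cases ho : t x.1 % 2 = 1
      · exact Or.inl ⟨x.1, ho, by omega⟩
      · by_cases h3 : x.2.val % 2 = 0
        · exact Or.inr (Or.inl ⟨x.1, by omega, by omega⟩)
        · exact Or.inr (Or.inr ⟨x.1, by omega, by omega⟩))
    (by
      refine le_trans ?_ (le_max_left _ _)
      refine le_trans (card_union_le _ _) ?_
      unfold oo
      refine add_le_add card_image_le (le_trans (card_union_le _ _) ?_)
      rw [two_mul]
      exact add_le_add card_image_le card_image_le)
  refine ⟨f, hf, fun v => ?_⟩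
  obtain ⟨x, rfl⟩ := nx_surj v
  rw [nsum_nx ht, ← card_VV]
  have h1 := nx2_val ht x
  have h2 := hs (t x.1)
  have h3 := he (t x.1) x.2.val
  have h4 := he (t x.1) (nx (nx x)).2.val
  have h5 := hu (t x.1) x.2.val
  have h6 := hu (t x.1) (nx (nx x)).2.val
  have h7 := x.2.isLt
  have h0 := ht x.1
  generalize hc : (nx (nx x)).2.val = c at h1 h4 h6
  have h8 := pp_edge (s := s (t x.1)) (u := u (t x.1) x.2.val) (v := u (t x.1) c)
    (hult x) (by clear h3 h4; omega)
  have h9 : e (t x.1) x.2.val = e (t x.1) c := by omega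
  subst hc
  refine hb x (nx (nx x)) ?_ h8.1 h8.2
  show 2 * x.1.val + e (t x.1) x.2.val = 2 * x.1.val + e (t x.1) (nx (nx x)).2.val
  rw [h9]

theorem half {V : Type} [Fintype V] [DecidableEq V] (π : V → V) (hπ : Function.Injective π)
    (T D : Finset V) (hD : ∀ x ∈ D, π x ∈ D) (hT : ∀ x ∈ T, π x ∉ T) :
    2 * (D.filter (· ∈ T)).card ≤ D.card := by
  have h1 : (D.filter (· ∈ T)).card ≤ (D.filter (· ∉ T)).card := by
    refine card_le_card_of_injOn π (fun y hy => ?_) (fun a _ b _ h => hπ h)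
    simp only [coe_filter, Set.mem_setOf_eq] at hy ⊢
    exact ⟨hD _ hy.1, hT _ hy.2⟩
  have h2 := card_filter_add_card_filter_not (s := D) (fun y => y ∈ T)
  omega

theorem card_par (s e : ℕ) (he : e < 2) :
    ((range (2 * s)).filter fun a => a % 2 = e).card = s := by
  induction s with
  | zero => simp
  | succ s ih =>
    rw [show 2 * (s + 1) = 2 * s + 1 + 1 by ring, range_add_one, range_add_one, filter_insert,
      filter_insert]
    by_cases h : e = 0
    · rw [if_neg (by omega), if_pos (by omega), card_insert_of_notMem (by simp), ih]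
    · rw [if_pos (by omega), if_neg (by omega), card_insert_of_notMem (by simp), ih]

theorem card_fib (i : Fin k) (P : ℕ → Prop) [DecidablePred P] :
    (univ.filter fun x : VV t => x.1 = i ∧ P x.2.val).card = ((range (t i)).filter P).card := by
  refine card_bij (fun x _ => x.2.val) ?_ ?_ ?_
  · rintro ⟨j, a⟩ hx
    simp only [mem_filter, mem_univ, true_and] at hx
    obtain ⟨rfl, h⟩ := hx
    exact mem_filter.2 ⟨mem_range.2 a.isLt, h⟩
  · intro x hx y hy h
    simp only [mem_filter, mem_univ, true_and] at hx hy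
    exact vext (hx.1.trans hy.1.symm) h
  · intro b hb
    simp only [mem_filter, mem_range] at hb
    exact ⟨⟨i, ⟨b, hb.1⟩⟩, by simp [hb.2], rfl⟩

theorem indep (ht : ∀ i, 3 ≤ t i) (T : Finset (VV t)) (hT : ∀ x ∈ T, nx (nx x) ∉ T) :
    2 * T.card + oo t ≤ ∑ i, t i := by
  classical
  have hπ : Function.Injective fun x : VV t => nx (nx x) := nx_inj.comp nx_inj
  have h0 : T.card = ∑ i, (T.filter fun x => x.1 = i).card :=
    card_eq_sum_card_fiberwise (t := univ) (f := fun x : VV t => x.1) (fun _ _ => mem_univ _)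
  have h1 : oo t = ∑ i, ((if t i % 2 = 1 then 1 else 0) + 2 * if t i % 4 = 2 then 1 else 0) := by
    unfold oo
    rw [sum_add_distrib, ← mul_sum, card_filter, card_filter]
  rw [h0, h1, mul_sum, ← sum_add_distrib]
  refine sum_le_sum fun i _ => ?_
  have gen : ∀ (P : ℕ → Prop) [DecidablePred P],
      (∀ x : VV t, x.1 = i → P x.2.val → P (nx (nx x)).2.val) →
      2 * (T.filter fun x => x.1 = i ∧ P x.2.val).card ≤ ((range (t i)).filter P).card := by
    intro P _ hP
    rw [← card_fib]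
    have := half _ hπ T (univ.filter fun x : VV t => x.1 = i ∧ P x.2.val) (fun x hx => by
      simp only [mem_filter, mem_univ, true_and] at hx ⊢
      exact ⟨hx.1, hP x hx.1 hx.2⟩) hT
    refine le_trans (le_of_eq ?_) this
    congr 2
    ext x; simp [and_comm]
  have g0 := gen (fun _ => True) (fun _ _ _ => trivial)
  simp only [and_true, filter_true, card_range] at g0
  by_cases h4 : t i % 4 = 2
  · have par : ∀ e, ∀ x : VV t, x.1 = i → x.2.val % 2 = e → (nx (nx x)).2.val % 2 = e := by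
      intro e x hx h
      have := nx2_val ht x
      rw [← hx] at h4
      omega
    have g1 := gen (fun a => a % 2 = 0) (par 0)
    have g2 := gen (fun a => a % 2 = 1) (par 1)
    have e1 := card_par (t i / 2) 0 (by omega)
    have e2 := card_par (t i / 2) 1 (by omega)
    rw [show 2 * (t i / 2) = t i by omega] at e1 e2
    rw [e1] at g1
    rw [e2] at g2
    have e3 := card_filter_add_card_filter_not (s := T.filter fun x => x.1 = i)
      (fun x => x.2.val % 2 = 0)
    rw [filter_filter, filter_filter] at e3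
    have e4 : (T.filter fun x => x.1 = i ∧ ¬ x.2.val % 2 = 0) =
        T.filter fun x => x.1 = i ∧ x.2.val % 2 = 1 := by
      refine filter_congr fun x _ => ?_
      constructor <;> rintro ⟨h1, h2⟩ <;> exact ⟨h1, by omega⟩
    rw [e4] at e3
    rw [if_pos h4, if_neg (by omega)]
    omega
  · rw [if_neg h4]
    split_ifs <;> omega

theorem lab_rev {V : Type} [Fintype V] {f : V → ℕ} (hf : IsLab f) :
    IsLab fun x => Fintype.card V + 1 - f x := by
  have hm : ∀ v, 1 ≤ f v ∧ f v ≤ Fintype.card V := fun v => hf.1 (Set.mem_univ v)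
  refine lab_of_inj (fun x y h => hf.2.1 trivial trivial ?_) fun v => ?_
  · have := hm x; have := hm y; omega
  · have := hm v; omega

theorem lower (ht : ∀ i, 3 ≤ t i) (hne : ∃ i, t i ≠ 4) {f : VV t → ℕ} (hf : IsLab f) :
    ∃ x, (∑ i, t i) + 1 + max (oo t) 1 ≤ f x + f (nx (nx x)) := by
  classical
  by_contra hc
  push Not at hc
  have hm : ∀ v, 1 ≤ f v ∧ f v ≤ Fintype.card (VV t) := fun v => hf.1 (Set.mem_univ v)
  have hinj : Function.Injective f := fun x y h => hf.2.1 trivial trivial h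
  have hn := card_VV (t := t)
  by_cases ho : 1 ≤ oo t
  · rw [max_eq_left ho] at hc
    let T : Finset (VV t) := univ.filter fun x => (∑ i, t i) + oo t ≤ 2 * f x
    have h1 := indep ht T (fun x hx hx' => by
      simp only [T, mem_filter, mem_univ, true_and] at hx hx'
      have := hc x
      have h2 : f (nx (nx x)) ≠ f x := fun h => nx2_ne ht x (hinj h)
      omega)
    have h0 := indep ht ∅ (by simp)
    have h2 : (Icc (((∑ i, t i) + oo t + 1) / 2) (∑ i, t i)).card ≤ T.card := by
      refine le_trans (card_le_card (t := T.image f) fun a ha => ?_) card_image_le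
      rw [mem_Icc] at ha
      obtain ⟨v, -, hv⟩ := hf.2.2 (show a ∈ Set.Icc 1 (Fintype.card (VV t)) from
        ⟨by omega, by omega⟩)
      exact mem_image.2 ⟨v, by simp only [T, mem_filter, mem_univ, true_and]; omega, hv⟩
    rw [Nat.card_Icc] at h2
    simp only [card_empty] at h0
    omega
  · rw [max_eq_right (by omega)] at hc
    have hπ : Function.Bijective fun x : VV t => nx (nx x) :=
      ⟨nx_inj.comp nx_inj, nx_surj.comp nx_surj⟩
    have hg := lab_rev hf
    have hsum : ∑ x, f x = ∑ x, (Fintype.card (VV t) + 1 - f x) := by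
      have a1 : ∀ {g : VV t → ℕ}, IsLab g → ∑ x, g x = ∑ a ∈ Icc 1 (Fintype.card (VV t)), a := by
        intro g hg
        refine sum_bij (fun x _ => g x) (fun x _ => mem_Icc.2 (hg.1 (Set.mem_univ x)))
          (fun x _ y _ h => hg.2.1 trivial trivial h) (fun b hb => ?_) (fun _ _ => rfl)
        obtain ⟨v, -, hv⟩ := hg.2.2 (show b ∈ Set.Icc 1 (Fintype.card (VV t)) from mem_Icc.1 hb)
        exact ⟨v, mem_univ _, hv⟩
      rw [a1 hf, a1 hg]
    have h3 : ∑ x, f (nx (nx x)) = ∑ x, f x := hπ.sum_comp f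
    have h4 := (sum_eq_sum_iff_of_le (s := univ) (f := fun x => f (nx (nx x)))
      (g := fun x => Fintype.card (VV t) + 1 - f x) (fun x _ => by
        have := hc x; omega)).1 (h3.trans hsum)
    obtain ⟨i, hi⟩ := hne
    let x : VV t := ⟨i, ⟨0, by have := ht i; omega⟩⟩
    have b1 := h4 x (mem_univ _)
    have b2 := h4 (nx (nx x)) (mem_univ _)
    have b3 := hm x
    have b4 : nx (nx (nx (nx x))) = x := hinj (by omega)
    have b5 : (nx (nx (nx (nx x)))).2.val = 0 := by rw [b4]
    have b6 := nx2_val ht x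
    have b7 := nx2_val ht (nx (nx x))
    have b8 : t (nx (nx x)).1 = t i := rfl
    have b9 : t x.1 = t i := rfl
    have b10 : x.2.val = 0 := rfl
    have := ht i
    omega

theorem hi_ge {V : Type} [Fintype V] (G : SimpleGraph V) (f : V → ℕ) (v : V) :
    nsum G f v ≤ hi G f := le_ciSup (Finite.bddAbove_range _) v

theorem lo_le {V : Type} [Fintype V] (G : SimpleGraph V) (f : V → ℕ) (v : V) :
    lo G f ≤ nsum G f v := ciInf_le (OrderBot.bddBelow _) v

theorem hi_lower (ht : ∀ i, 3 ≤ t i) (hne : ∃ i, t i ≠ 4) {f : VV t → ℕ} (hf : IsLab f) :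
    (∑ i, t i) + 1 + max (oo t) 1 ≤ hi (cycles t) f := by
  obtain ⟨x, hx⟩ := lower ht hne hf
  rw [← nsum_nx ht] at hx
  exact hx.trans (hi_ge _ _ _)

theorem lo_upper (ht : ∀ i, 3 ≤ t i) (hne : ∃ i, t i ≠ 4) {f : VV t → ℕ} (hf : IsLab f) :
    lo (cycles t) f + max (oo t) 1 ≤ (∑ i, t i) + 1 := by
  obtain ⟨x, hx⟩ := lower ht hne (lab_rev hf)
  have h1 := lo_le (cycles t) f (nx x)
  rw [nsum_nx ht] at h1
  have hm : ∀ v, 1 ≤ f v ∧ f v ≤ Fintype.card (VV t) := fun v => hf.1 (Set.mem_univ v)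
  have := hm x
  have := hm (nx (nx x))
  have hn := card_VV (t := t)
  omega

end Pool.Agent.H.MP_af65a2_co
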